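import Pool.Agent.Y702.A.Defs

/-!
# The Bloch–Kato Selmer group `H¹_f(ℚ, V_p A)` of the abelian variety `A = E ⊗ M`

`V_p A = T_p A ⊗ ℚ_p` is described by sequences of points: the element `x` corresponds to the sequence
of the classes of `p⁻ⁿ x` in `V_p A / T_p A = A[p ^ ∞]`.  The local conditions are given by the images
of the local Kummer maps.
-/

set_option autoImplicit false

namespace Pool.Agent.T9h37.BK

open WeierstrassCurve
open Pool.Agent.TH841.SH.D (Pt act Gal)
open Pool.Agent.Y702.A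

section

variable (p : ℕ) {g : ℕ} (W : WeierstrassCurve ℤ) (R : Gal ℚ →* GL (Fin g) ℤ)

/-- the sequences of points of `A` over the algebraic closure -/
def SeqA (g : ℕ) : Type := ℕ → PtM W g (AlgebraicClosure ℚ)

noncomputable instance SeqA.group (g : ℕ) : AddCommGroup (SeqA W g) :=
  @Pi.addCommGroup ℕ (fun _ => PtM W g (AlgebraicClosure ℚ)) (fun _ => inferInstance)

/-- The rational Tate module `V_p(A) = T_p(A) ⊗ ℚ_p`: the sequences `x₀, x₁, …` of points of `A` over
the algebraic closure, of `p`-power order, with `p xₙ₊₁ = xₙ` (`xₙ` is the class of `p⁻ⁿ x` in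
`V_p(A) / T_p(A) = A[p ^ ∞]`). -/
def IsVA (x : SeqA W g) : Prop := ∀ n, p • x (n + 1) = x n ∧ ∃ m : ℕ, (p ^ m : ℕ) • x n = 0

/-- functions on the absolute Galois group with values in the sequences of points -/
def CochV (g : ℕ) : Type := Gal ℚ → SeqA W g

noncomputable instance CochV.group (g : ℕ) : AddCommGroup (CochV W g) :=
  @Pi.addCommGroup (Gal ℚ) (fun _ => SeqA W g) (fun _ => SeqA.group W g)

/-- `c` is a continuous cocycle with values in `V_p(A)`: each coordinate is locally constant, and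
`c (σ τ) = c σ + σ (c τ)`. -/
def IsCocVA (c : CochV W g) : Prop :=
  (∀ n, IsLocallyConstant fun σ => c σ n) ∧ (∀ σ, IsVA p W (c σ)) ∧
    ∀ (σ τ : Gal ℚ) (n : ℕ), c (σ * τ) n = c σ n + actA W R σ (c τ n)

/-- `c` is a coboundary: `c σ = σ x - x` with `x` in `V_p(A)`. -/
def IsCobVA (c : CochV W g) : Prop :=
  ∃ x : SeqA W g, IsVA p W x ∧ ∀ (σ : Gal ℚ) (n : ℕ), c σ n = actA W R σ (x n) - x n

/-- The restriction of `c` to the absolute Galois group of the extension `K` of `ℚ` is in the image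
of the Kummer map of `K`: there is a sequence `Q₀, Q₁, …` of points of `A` over the algebraic closure
of `K` with `p Qₙ₊₁ = Qₙ` such that `(c τ)ₙ = τ Qₙ - Qₙ` for all `n` and `τ`; here `τ` acts on `A`
over the algebraic closure of `K` by its action on the coordinates and the matrix `R(σ)`, `σ` being
the restriction of `τ`.  (As `c` is continuous with values in `V_p(A)`, some multiple `p ^ m Q₀` is a
point over `K`, and the class of `c` is `p ^ (-m)` times its image under the Kummer map.) -/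
def LocKumA (K : Type) [Field K] [Algebra ℚ K] (c : CochV W g) : Prop :=
  ∀ ι : AlgebraicClosure ℚ →ₐ[ℚ] AlgebraicClosure K, ∃ Q : ℕ → PtM W g (AlgebraicClosure K),
    (∀ n, p • Q (n + 1) = Q n) ∧
    ∀ (τ : Gal K) (σ : Gal ℚ), (∀ x, τ (ι x) = ι (σ x)) → ∀ n,
      cw (act (EQ W) ι) (c σ n) = mat (R σ : Matrix (Fin g) (Fin g) ℤ)
        (cw (act (EQ W) (τ.toAlgHom.restrictScalars ℚ)) (Q n)) - Q n

/-- `c` is a continuous cocycle with values in `V_p(A)` whose restriction to the completions at all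
the places of `ℚ` is in the image of the local Kummer map -/
def IsSelVA (c : CochV W g) : Prop :=
  IsCocVA p W R c ∧ (∀ (q : ℕ) [Fact q.Prime], LocKumA p W R ℚ_[q] c) ∧ LocKumA p W R ℝ c

variable {p W R}

lemma isVA_zero : IsVA p W (0 : SeqA W g) := fun _ => ⟨smul_zero _, 0, smul_zero _⟩

lemma isVA_add {x y : SeqA W g} (hx : IsVA p W x) (hy : IsVA p W y) : IsVA p W (x + y) := by
  intro n
  obtain ⟨h1, m, hm⟩ := hx n
  obtain ⟨h2, l, hl⟩ := hy n
  refine ⟨?_, m + l, ?_⟩
  · change p • (x (n + 1) + y (n + 1)) = x n + y n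
    rw [smul_add, h1, h2]
  · change (p ^ (m + l) : ℕ) • (x n + y n) = 0
    rw [smul_add, pow_add, mul_comm, mul_smul, hm, smul_zero, mul_comm, mul_smul, hl, smul_zero,
      add_zero]

lemma isVA_neg {x : SeqA W g} (hx : IsVA p W x) : IsVA p W (-x) := by
  intro n
  obtain ⟨h1, m, hm⟩ := hx n
  refine ⟨?_, m, ?_⟩
  · change p • (-x (n + 1)) = -x n
    rw [smul_neg, h1]
  · change (p ^ m : ℕ) • (-x n) = 0
    rw [smul_neg, hm, neg_zero]

lemma locKumA_zero (K : Type) [Field K] [Algebra ℚ K] : LocKumA p W R K 0 := fun ι =>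
  ⟨fun _ => 0, fun _ => smul_zero _, fun τ σ _ n => by
    change cw (act (EQ W) ι) 0 = _
    rw [map_zero, map_zero, map_zero, sub_zero]⟩

lemma locKumA_add {K : Type} [Field K] [Algebra ℚ K] {c d : CochV W g}
    (hc : LocKumA p W R K c) (hd : LocKumA p W R K d) : LocKumA p W R K (c + d) := by
  intro ι
  obtain ⟨P, hP1, hP2⟩ := hc ι
  obtain ⟨Q, hQ1, hQ2⟩ := hd ι
  refine ⟨fun n => P n + Q n, fun n => ?_, fun τ σ h n => ?_⟩
  · change p • (P (n + 1) + Q (n + 1)) = P n + Q n
    rw [smul_add, hP1 n, hQ1 n]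
  · change cw (act (EQ W) ι) (c σ n + d σ n) = mat (R σ : Matrix (Fin g) (Fin g) ℤ)
        (cw (act (EQ W) (τ.toAlgHom.restrictScalars ℚ)) (P n + Q n)) - (P n + Q n)
    rw [map_add, map_add, map_add, hP2 τ σ h n, hQ2 τ σ h n]
    abel

lemma locKumA_neg {K : Type} [Field K] [Algebra ℚ K] {c : CochV W g}
    (hc : LocKumA p W R K c) : LocKumA p W R K (-c) := by
  intro ι
  obtain ⟨P, hP1, hP2⟩ := hc ι
  refine ⟨fun n => -P n, fun n => ?_, fun τ σ h n => ?_⟩
  · change p • (-P (n + 1)) = -P n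
    rw [smul_neg, hP1 n]
  · change cw (act (EQ W) ι) (-c σ n) = mat (R σ : Matrix (Fin g) (Fin g) ℤ)
        (cw (act (EQ W) (τ.toAlgHom.restrictScalars ℚ)) (-P n)) - -P n
    rw [map_neg, map_neg, map_neg, hP2 τ σ h n]
    abel

variable (p W R)

/-- the group of the coboundaries -/
def cobVA : AddSubgroup (CochV W g) where
  carrier := {c | IsCobVA p W R c}
  zero_mem' := ⟨0, isVA_zero, fun σ n => by
    change (0 : PtM W g (AlgebraicClosure ℚ)) = actA W R σ 0 - 0
    rw [map_zero, sub_zero]⟩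
  add_mem' := by
    rintro c d ⟨x, hx, hc⟩ ⟨y, hy, hd⟩
    refine ⟨x + y, isVA_add hx hy, fun σ n => ?_⟩
    change c σ n + d σ n = actA W R σ (x n + y n) - (x n + y n)
    rw [hc, hd, map_add]
    abel
  neg_mem' := by
    rintro c ⟨x, hx, hc⟩
    refine ⟨-x, isVA_neg hx, fun σ n => ?_⟩
    change -c σ n = actA W R σ (-x n) - -x n
    rw [hc, map_neg]
    abel

/-- the group of the continuous cocycles with values in `V_p(A)` that satisfy the local conditions -/
def selVA : AddSubgroup (CochV W g) where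
  carrier := {c | IsSelVA p W R c}
  zero_mem' := ⟨⟨fun _ => IsLocallyConstant.const _, fun _ => isVA_zero, fun σ τ n => by
    change (0 : PtM W g (AlgebraicClosure ℚ)) = 0 + actA W R σ 0
    rw [map_zero, add_zero]⟩, fun _ _ => locKumA_zero _, locKumA_zero _⟩
  add_mem' := by
    rintro c d ⟨⟨a1, a2, a3⟩, a4, a5⟩ ⟨⟨b1, b2, b3⟩, b4, b5⟩
    refine ⟨⟨fun n => (a1 n).add (b1 n), fun σ => isVA_add (a2 σ) (b2 σ), fun σ τ n => ?_⟩,
      fun q _ => locKumA_add (a4 q) (b4 q), locKumA_add a5 b5⟩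
    change c (σ * τ) n + d (σ * τ) n = c σ n + d σ n + actA W R σ (c τ n + d τ n)
    rw [a3, b3, map_add]
    abel
  neg_mem' := by
    rintro c ⟨⟨a1, a2, a3⟩, a4, a5⟩
    refine ⟨⟨fun n => (a1 n).neg, fun σ => isVA_neg (a2 σ), fun σ τ n => ?_⟩,
      fun q _ => locKumA_neg (a4 q), locKumA_neg a5⟩
    change -c (σ * τ) n = -c σ n + actA W R σ (-c τ n)
    rw [a3, map_neg]
    abel

/-- The Bloch–Kato Selmer group `H¹_f(ℚ, V_p(A))`: the classes of continuous cocycles with values in
`V_p(A)` whose restriction to the completion at every place is in the image of the Kummer map. -/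
def H1fA : Type := selVA p W R ⧸ (cobVA p W R).addSubgroupOf (selVA p W R)

noncomputable instance H1fA.group : AddCommGroup (H1fA p W R) :=
  @QuotientAddGroup.Quotient.addCommGroup (selVA p W R) _ ((cobVA p W R).addSubgroupOf (selVA p W R))

end

end Pool.Agent.T9h37.BK
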