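import Pool.Agent.Y65.Sham.Sham
import Pool.Agent.Y667.BKP.Main
import Pool.Agent.T9h37.BK.Def

/-!
# The Bloch–Kato Selmer group and the rational points of `E ⊗ M`
-/

set_option autoImplicit false
set_option linter.unusedSectionVars false

attribute [-instance] DivisionRing.toRatAlgebra

namespace Pool.Agent.T9h37.BK

open WeierstrassCurve NumberField IsDedekindDomain

open Pool.Agent.TH841.NF Pool.Agent.Y682 Pool.Agent.Y702.A Pool.Agent.Y65.Sham

open Pool.Agent.TH841.SH.D (Pt act Gal Coch IsCoc IsCob LocTriv cob)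

section main

variable {g : ℕ} {W : WeierstrassCurve ℤ} {K : Type} [Field K] [NumberField K]
  [Algebra ℚ K] {R : Gal ℚ →* GL (Fin g) ℤ} (e : AlgebraicClosure K ≃+* Qb)
  (hW : Sc (algebraMap ℚ K) 1 (EQ W) (W.map (Int.castRingHom K)))
  (hR : ∀ σ : Gal ℚ, Fx e σ → R σ = 1)

/-- averaging over the cosets -/
lemma avg2 {h : Gal ℚ → PP g W}
    (hc : ∀ σ τ : Gal ℚ, h (σ * τ) = h σ + aA W R σ (h τ))
    (h0 : ∀ σ : Gal ℚ, Fx e σ → h σ = 0) :
    ∃ P : PP g W, ∀ σ, Module.finrank ℚ K • h σ = aA W R σ P - P := by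
  classical
  set S : PP g W := ∑ q : Gal ℚ ⧸ HF e, h (sec (HF e) q) with hS
  have hcos : ∀ σ τ : Gal ℚ, (σ : Gal ℚ ⧸ HF e) = τ → h σ = h τ := by
    intro σ τ hστ
    have h1 : Fx e (σ⁻¹ * τ) := QuotientGroup.eq.1 hστ
    have h2 := hc σ (σ⁻¹ * τ)
    rw [mul_inv_cancel_left, h0 _ h1, map_zero, add_zero] at h2
    exact h2.symm
  have key : ∀ σ, aA W R σ S = S - Module.finrank ℚ K • h σ := by
    intro σ
    have h1 : ∀ q : Gal ℚ ⧸ HF e, aA W R σ (h (sec (HF e) q)) =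
        h (sec (HF e) (σ • q)) - h σ := by
      intro q
      have h2 : h (sec (HF e) (σ • q)) = h (σ * sec (HF e) q) := by
        apply hcos
        rw [sec_spec]
        conv_lhs => rw [← sec_spec (HF e) q]
        rfl
      rw [h2, hc]
      abel
    rw [hS, map_sum, Finset.sum_congr rfl fun q _ => h1 q, Finset.sum_sub_distrib,
      Finset.sum_const, Finset.card_univ, card_coset e]
    congr 1
    exact Equiv.sum_comp (MulAction.toPerm σ : Equiv.Perm (Gal ℚ ⧸ HF e))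
      (fun q : Gal ℚ ⧸ HF e => h (sec (HF e) q))
  refine ⟨-S, fun σ => ?_⟩
  rw [map_neg, key]
  abel

include hW hR in
/-- the main step -/
theorem core2 {p : ℕ} {m : ℕ}
    (hsha : ∀ (k : ℕ) (s : Pool.Agent.TH841.NF.D.Sha (W.map (Int.castRingHom K))),
      (p ^ k : ℕ) • s = 0 → (p ^ m : ℕ) • s = 0)
    {f : Gal ℚ → PP g W} (hlc : IsLocallyConstant f)
    (hc : ∀ σ τ, f (σ * τ) = f σ + aA W R σ (f τ))
    (hp : ∀ (q : ℕ) [Fact q.Prime], ∃ (_iK : Algebra ℚ ℚ_[q]),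
      ∀ ι : Qb →ₐ[ℚ] AlgebraicClosure ℚ_[q],
      ∃ P : Fin g → Pt (EQ W) (AlgebraicClosure ℚ_[q]), ∀ (τ : Gal ℚ_[q]) (σ : Gal ℚ),
        (∀ x, τ (ι x) = ι (σ x)) → R σ = 1 →
        ∀ i, act (EQ W) ι (f σ i) = act (EQ W) (τ.toAlgHom.restrictScalars ℚ) (P i) - P i)
    (hr : ∃ (_iK : Algebra ℚ ℝ), ∀ ι : Qb →ₐ[ℚ] AlgebraicClosure ℝ,
      ∃ P : Fin g → Pt (EQ W) (AlgebraicClosure ℝ), ∀ (τ : Gal ℝ) (σ : Gal ℚ),
        (∀ x, τ (ι x) = ι (σ x)) → R σ = 1 →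
        ∀ i, act (EQ W) ι (f σ i) = act (EQ W) (τ.toAlgHom.restrictScalars ℚ) (P i) - P i)
    {k : ℕ} (hk : ∀ σ, (p ^ k : ℕ) • f σ = 0) :
    ∃ T : PP g W, ∀ σ, (Module.finrank ℚ K * p ^ m) • f σ = aA W R σ T - T := by
  classical
  obtain ⟨S, hS⟩ := cocA_fin W R hlc hc
  -- the coordinates
  let fi : Fin g → Coch (EQ W) := fun i σ => f σ i
  have hsh : ∀ i, Pool.Agent.TH841.NF.D.IsShaCoc (W.map (Int.castRingHom K))
      (rs hW e (fi i)) := by
    intro i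
    refine ⟨?_, fun v => ?_, fun v => ?_⟩
    · apply rs_coc' hW e _ S
      · intro τ hτ
        exact congrFun (hS τ hτ) i
      · intro σ τ hσ _
        change f (σ * τ) i = f σ i + act (EQ W) σ.toAlgHom (f τ i)
        rw [hc, Pi.add_apply, aA_of_one W R (hR σ hσ)]
    · obtain ⟨q, hq0, hqv⟩ := exists_prime_mem v
      have : Fact q.Prime := ⟨hq0⟩
      obtain ⟨iK, h2⟩ := hp q
      apply rs_loc' (iK := iK) hW e (pth hqv)
      intro ι
      obtain ⟨P, hP⟩ := h2 ι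
      exact ⟨P i, fun τ σ hσ hτ => hP τ σ hτ (hR σ hσ) i⟩
    · obtain ⟨θ⟩ := exists_real_hom v
      obtain ⟨iK, h2⟩ := hr
      apply rs_loc' (iK := iK) hW e θ
      intro ι
      obtain ⟨P, hP⟩ := h2 ι
      exact ⟨P i, fun τ σ hσ hτ => hP τ σ hτ (hR σ hσ) i⟩
  have hcob : ∀ i, IsCob (W.map (Int.castRingHom K)) ((p ^ m : ℕ) • rs hW e (fi i)) := by
    intro i
    have h2 := hsha k (QuotientAddGroup.mk (⟨rs hW e (fi i), hsh i⟩ :
      Pool.Agent.TH841.NF.D.shaCoc (W.map (Int.castRingHom K)))) (by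
      refine (QuotientAddGroup.eq_zero_iff ((p ^ k : ℕ) • (⟨rs hW e (fi i), hsh i⟩ :
        Pool.Agent.TH841.NF.D.shaCoc (W.map (Int.castRingHom K))))).2 ?_
      refine ⟨0, fun σ => ?_⟩
      change (p ^ k : ℕ) • rs hW e (fi i) σ = _
      unfold rs
      have h3 : (p ^ k : ℕ) • fi i (cQ e σ) = 0 := congrFun (hk (cQ e σ)) i
      rw [← map_nsmul, h3, map_zero, map_zero, sub_zero])
    exact (QuotientAddGroup.eq_zero_iff ((p ^ m : ℕ) • (⟨rs hW e (fi i), hsh i⟩ :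
      Pool.Agent.TH841.NF.D.shaCoc (W.map (Int.castRingHom K))))).1 h2
  choose Q hQ using hcob
  set T : PP g W := fun i =>
    tm (sc_any hW (e : AlgebraicClosure K →+* Qb)) (Q i) with hT
  have hrsm : ∀ i, (p ^ m : ℕ) • rs hW e (fi i) = rs hW e ((p ^ m : ℕ) • fi i) := by
    intro i
    funext σ
    change (p ^ m : ℕ) • rs hW e (fi i) σ = rs hW e ((p ^ m : ℕ) • fi i) σ
    unfold rs
    rw [← map_nsmul]
    rfl
  have hfT : ∀ σ : Gal ℚ, Fx e σ → (p ^ m : ℕ) • f σ = aA W R σ T - T := by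
    intro σ hσ
    funext i
    rw [Pi.sub_apply, aA_of_one W R (hR σ hσ)]
    have h2 : tr hW e (rs hW e ((p ^ m : ℕ) • fi i)) σ = ((p ^ m : ℕ) • fi i) σ :=
      tr_rs hW e ((p ^ m : ℕ) • fi i) hσ
    have h3 := tr_cob hW e (hQ i) hσ
    rw [hrsm, h2] at h3
    exact h3
  let h : Gal ℚ → PP g W := fun σ => (p ^ m : ℕ) • f σ - (aA W R σ T - T)
  have hh0 : ∀ σ : Gal ℚ, Fx e σ → h σ = 0 := fun σ hσ => by
    change (p ^ m : ℕ) • f σ - (aA W R σ T - T) = 0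
    rw [hfT σ hσ, sub_self]
  have hhc : ∀ σ τ : Gal ℚ, h (σ * τ) = h σ + aA W R σ (h τ) := by
    intro σ τ
    change (p ^ m : ℕ) • f (σ * τ) - (aA W R (σ * τ) T - T) = (p ^ m : ℕ) • f σ - (aA W R σ T - T) +
      aA W R σ ((p ^ m : ℕ) • f τ - (aA W R τ T - T))
    rw [hc, aA_mul, map_sub, map_sub, smul_add, map_nsmul]
    abel
  obtain ⟨P', hP'⟩ := avg2 e hhc hh0
  refine ⟨P' + Module.finrank ℚ K • T, fun σ => ?_⟩
  have h5 : Module.finrank ℚ K • ((p ^ m : ℕ) • f σ - (aA W R σ T - T)) = aA W R σ P' - P' := hP' σ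
  rw [nsmul_sub, sub_eq_iff_eq_add] at h5
  rw [mul_smul, h5, map_add, map_nsmul, nsmul_sub]
  abel

end main

/-- **The conjecture of Bloch and Kato for `E ⊗ M`**: if `E(K)` is finite and the `p`-primary part of
`Ш(E/K)` has bounded exponent, then `A(ℚ)` is finite and `H¹_f(ℚ, V_p A) = 0` for all the lattices `M`
on which the absolute Galois group of `K` acts trivially. -/
theorem zeroA {p : ℕ} (hp : p.Prime) (W : WeierstrassCurve ℤ) (K : Type) [Field K] [NumberField K]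
    (iG : @IsGalois ℚ _ K _ DivisionRing.toRatAlgebra) (m : ℕ)
    (hsha : ∀ (k : ℕ) (s : Pool.Agent.TH841.NF.D.Sha (W.map (Int.castRingHom K))),
      (p ^ k : ℕ) • s = 0 → (p ^ m : ℕ) • s = 0)
    (hfin : Finite (W.map (Int.castRingHom K)).toAffine.Point)
    (g : ℕ) (R : Gal ℚ →* GL (Fin g) ℤ) (e₀ : K →+* AlgebraicClosure ℚ)
    (hR₀ : ∀ σ : Gal ℚ, (∀ x : K, σ (e₀ x) = e₀ x) → R σ = 1) :
    Finite (ptsA W R) ∧ ∀ x : H1fA p W R, x = 0 := by
  classical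
  let iK : Algebra ℚ K := DivisionRing.toRatAlgebra
  -- the isomorphism of the algebraic closures
  obtain ⟨e, he⟩ : ∃ e : AlgebraicClosure K ≃+* Qb, ∀ x : K, e (algebraMap K _ x) = e₀ x := by
    let i1 : Algebra K Qb := e₀.toAlgebra
    have i2 : IsScalarTower ℚ K Qb :=
      IsScalarTower.of_algebraMap_eq (fun x => (rat_hom (e₀.comp (algebraMap ℚ K)) x).symm)
    have i3 : Algebra.IsAlgebraic K Qb := Algebra.IsAlgebraic.tower_top (K := ℚ) K
    have i4 : IsAlgClosure K Qb := ⟨inferInstance, inferInstance⟩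
    exact ⟨(IsAlgClosure.equiv K (AlgebraicClosure K) Qb).toRingEquiv,
      fun x => (IsAlgClosure.equiv K (AlgebraicClosure K) Qb).commutes x⟩
  have hR : ∀ σ : Gal ℚ, Fx e σ → R σ = 1 := fun σ hσ => hR₀ σ (fun x => by
    rw [← he]
    exact hσ x)
  have hW : Sc (algebraMap ℚ K) 1 (EQ W) (W.map (Int.castRingHom K)) := by
    refine ⟨one_ne_zero, ?_, ?_, ?_, ?_, ?_⟩ <;> simp
  have hfin' : Finite (Pt (W.map (Int.castRingHom K)) K) := hfin
  have hle : ptsA W R ≤ (inc (g := g) e hW).range := fun P hP =>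
    fixed_range e hW hR (fun σ _ => hP σ)
  have hfr : Finite (inc (g := g) e hW).range :=
    Finite.of_equiv _ (AddMonoidHom.ofInjective (inc_inj (g := g) e hW)).toEquiv
  have hpf : Finite (ptsA W R) := @Finite.of_injective _ _ hfr (AddSubgroup.inclusion hle)
    (AddSubgroup.inclusion_injective hle)
  refine ⟨hpf, ?_⟩
  have hFix : Finite (Pool.Agent.Y667.BKP.Fix fun σ : Gal ℚ => aA W R σ) := hpf
  intro x
  obtain ⟨⟨c0, hc0⟩, rfl⟩ := QuotientAddGroup.mk_surjective x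
  refine (QuotientAddGroup.eq_zero_iff _).2 ?_
  rw [AddSubgroup.mem_addSubgroupOf]
  have hc1 : IsSelVA p W R c0 := hc0
  obtain ⟨c, hcc⟩ : ∃ c : Gal ℚ → ℕ → PP g W, c = c0 := ⟨c0, rfl⟩
  have h1 : ∀ n, IsLocallyConstant fun σ => c σ n := by
    rw [hcc]
    exact hc1.1.1
  have h2 : ∀ σ n, p • c σ (n + 1) = c σ n ∧ ∃ m : ℕ, (p ^ m : ℕ) • c σ n = 0 := by
    rw [hcc]
    exact hc1.1.2.1
  have h3 : ∀ (σ τ : Gal ℚ) (n : ℕ), c (σ * τ) n = c σ n + aA W R σ (c τ n) := by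
    rw [hcc]
    exact hc1.1.2.2
  have hpow : ∀ (σ : Gal ℚ) (n k : ℕ), (p ^ k : ℕ) • c σ (n + k) = c σ n := by
    intro σ n k
    induction k with
    | zero => simp
    | succ k ih =>
      rw [pow_succ, mul_smul, ← add_assoc, (h2 σ (n + k)).1, ih]
  have htor : ∀ n, ∃ k : ℕ, ∀ σ, (p ^ k : ℕ) • c σ n = 0 := by
    intro n
    have hfr : (Set.range fun σ => c σ n).Finite := (h1 n).range_finite
    choose a ha using fun σ => (h2 σ n).2
    have hex : ∀ y ∈ Set.range (fun σ => c σ n), ∃ k : ℕ, (p ^ k : ℕ) • y = 0 := by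
      rintro y ⟨σ, rfl⟩
      exact ⟨a σ, ha σ⟩
    choose! k hk using hex
    obtain ⟨b, hb⟩ := (hfr.image k).bddAbove
    refine ⟨b, fun σ => ?_⟩
    have e1 := hk _ (Set.mem_range_self σ)
    have e2 : k (c σ n) ≤ b := hb ⟨_, Set.mem_range_self σ, rfl⟩
    rw [← Nat.sub_add_cancel e2, pow_add, mul_smul, e1, smul_zero]
  have hN0 : Module.finrank ℚ K ≠ 0 := Module.finrank_pos.ne'
  obtain ⟨a, N', hN', hNN⟩ := Nat.exists_eq_pow_mul_and_not_dvd hN0 p hp.ne_one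
  have hcob : ∀ n, ∃ P : PP g W, ∀ σ : Gal ℚ, c σ n = aA W R σ P - P := by
    intro n
    obtain ⟨k, hk⟩ := htor (n + (a + m))
    obtain ⟨T, hT⟩ := core2 (f := fun σ => c σ (n + (a + m))) e hW hR hsha (h1 _)
      (fun σ τ => h3 σ τ _) (fun q _ => by
      refine ⟨DivisionRing.toRatAlgebra, fun ι => ?_⟩
      obtain ⟨Q, -, hQ⟩ := hc1.2.1 q ι
      refine ⟨Q (n + (a + m)), fun τ σ hτ hσ i => ?_⟩
      have e2 := congrFun (hQ τ σ hτ (n + (a + m))) i
      rw [hσ, Units.val_one, mat_one] at e2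
      rw [hcc]
      exact e2) (by
      refine ⟨DivisionRing.toRatAlgebra, fun ι => ?_⟩
      obtain ⟨Q, -, hQ⟩ := hc1.2.2 ι
      refine ⟨Q (n + (a + m)), fun τ σ hτ hσ i => ?_⟩
      have e2 := congrFun (hQ τ σ hτ (n + (a + m))) i
      rw [hσ, Units.val_one, mat_one] at e2
      rw [hcc]
      exact e2) (k := k) hk
    obtain ⟨k', hk'⟩ := htor n
    have hcop : Nat.Coprime N' (p ^ k') := by
      apply Nat.Coprime.pow_right
      exact ((Nat.Prime.coprime_iff_not_dvd hp).2 hN').symm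
    obtain ⟨u, v, huv⟩ := Nat.isCoprime_iff_coprime.2 hcop
    refine ⟨u • T, fun σ => ?_⟩
    have e1 : N' • c σ n = aA W R σ T - T := by
      rw [← hT σ, hNN, ← hpow σ n (a + m), smul_smul]
      congr 1
      rw [pow_add]
      ring
    have e3 : (u * (N' : ℤ) + v * ((p ^ k' : ℕ) : ℤ)) • c σ n = c σ n := by
      rw [huv, one_smul]
    rw [add_smul, mul_smul, mul_smul, natCast_zsmul, natCast_zsmul, hk', smul_zero, add_zero,
      e1] at e3
    rw [← e3, map_zsmul, smul_sub]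
  obtain ⟨x, hx1, hx2⟩ := Pool.Agent.Y667.BKP.lift (fun σ : Gal ℚ => aA W R σ) hp c
    (fun σ n => (h2 σ n).1) htor hcob
  rw [hcc] at hx2
  exact ⟨x, hx1, hx2⟩

end Pool.Agent.T9h37.BK
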