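import Mathlib

/-!
# `ℚ(ω, ∛l : l ∈ M)` is a Galois extension of `ℚ`
-/

set_option autoImplicit false

namespace Pool.Agent.T9h37.BK

open Polynomial

theorem galois_omega {Ω : Type} [Field Ω] [NumberField Ω] (M : Finset ℕ) (z : Ω)
    (hz : z ^ 2 + z + 1 = 0) (r : ℕ → Ω) (hr : ∀ l ∈ M, r l ^ 3 = (l : Ω))
    (hgen : ∀ S : Subfield Ω, z ∈ S → (∀ l ∈ M, r l ∈ S) → S = ⊤) : IsGalois ℚ Ω := by
  classical
  have hz3 : z ^ 3 = 1 := by linear_combination (z - 1) * hz
  let p : ℚ[X] := (∏ l ∈ M, (X ^ 3 - C (l : ℚ))) * (X ^ 2 + X + 1)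
  have hfac2 : ((X ^ 2 + X + 1 : ℚ[X]).map (algebraMap ℚ Ω)) = (X - C z) * (X - C (z ^ 2)) := by
    rw [Polynomial.map_add, Polynomial.map_add, Polynomial.map_pow, Polynomial.map_X,
      Polynomial.map_one]
    have e1 : z ^ 2 = -z - 1 := by linear_combination hz
    have e2 : (X - C z) * (X - C (z ^ 2)) = X ^ 2 - (C z + C (z ^ 2)) * X + C z * C (z ^ 2) := by
      ring
    have e3 : C z + C (z ^ 2) = (-1 : Polynomial Ω) := by
      rw [← C_add, e1]
      have : z + (-z - 1) = -1 := by ring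
      rw [this]
      simp
    have e4 : C z * C (z ^ 2) = (1 : Polynomial Ω) := by
      rw [← C_mul, show z * z ^ 2 = z ^ 3 by ring, hz3, C_1]
    rw [e2, e3, e4]
    ring
  have hfac3 : ∀ l ∈ M, ((X ^ 3 - C (l : ℚ) : ℚ[X]).map (algebraMap ℚ Ω)) =
      (X - C (r l)) * (X - C (z * r l)) * (X - C (z ^ 2 * r l)) := by
    intro l hl
    rw [Polynomial.map_sub, Polynomial.map_pow, Polynomial.map_X, Polynomial.map_C, map_natCast,
      ← hr l hl]
    have e1 : (X - C (r l)) * (X - C (z * r l)) * (X - C (z ^ 2 * r l)) =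
        X ^ 3 - C (r l) * (1 + C z + C (z ^ 2)) * X ^ 2 +
          C (r l) ^ 2 * (C z + C (z ^ 2) + C z * C (z ^ 2)) * X - C (r l) ^ 3 * (C z * C (z ^ 2)) := by
      rw [C_mul, C_mul]
      ring
    have e2 : 1 + C z + C (z ^ 2) = (0 : Polynomial Ω) := by
      rw [← C_1, ← C_add, ← C_add, show (1 : Ω) + z + z ^ 2 = z ^ 2 + z + 1 by ring, hz, C_0]
    have e4 : C z * C (z ^ 2) = (1 : Polynomial Ω) := by
      rw [← C_mul, show z * z ^ 2 = z ^ 3 by ring, hz3, C_1]
    have e3 : C z + C (z ^ 2) + C z * C (z ^ 2) = (0 : Polynomial Ω) := by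
      rw [e4, ← e2]
      ring
    rw [e1, e2, e3, e4, C_pow]
    ring
  have hsp : (p.map (algebraMap ℚ Ω)).Splits := by
    change (((∏ l ∈ M, (X ^ 3 - C (l : ℚ))) * (X ^ 2 + X + 1)).map (algebraMap ℚ Ω)).Splits
    rw [Polynomial.map_mul, Polynomial.map_prod, hfac2, Finset.prod_congr rfl hfac3]
    refine Splits.mul (Splits.prod fun l _ => ?_) ?_
    · exact ((Splits.X_sub_C _).mul (Splits.X_sub_C _)).mul (Splits.X_sub_C _)
    · exact (Splits.X_sub_C _).mul (Splits.X_sub_C _)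
  have hp0 : p ≠ 0 := by
    refine mul_ne_zero (Finset.prod_ne_zero_iff.2 fun l _ =>
      Polynomial.X_pow_sub_C_ne_zero (by norm_num) _) ?_
    have hq : (X ^ 2 + X + 1 : ℚ[X]).natDegree = 2 := by
      compute_degree!
    intro h
    rw [h, natDegree_zero] at hq
    omega
  have hzr : z ∈ p.rootSet Ω := by
    rw [mem_rootSet]
    refine ⟨hp0, ?_⟩
    change aeval z ((∏ l ∈ M, (X ^ 3 - C (l : ℚ))) * (X ^ 2 + X + 1)) = 0
    rw [map_mul]
    have : aeval z (X ^ 2 + X + 1 : ℚ[X]) = 0 := by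
      simp only [map_add, map_pow, aeval_X, map_one]
      exact hz
    rw [this, mul_zero]
  have hrr : ∀ l ∈ M, r l ∈ p.rootSet Ω := by
    intro l hl
    rw [mem_rootSet]
    refine ⟨hp0, ?_⟩
    change aeval (r l) ((∏ l ∈ M, (X ^ 3 - C (l : ℚ))) * (X ^ 2 + X + 1)) = 0
    rw [map_mul, map_prod, Finset.prod_eq_zero hl, zero_mul]
    simp only [map_sub, map_pow, aeval_X, aeval_C, map_natCast]
    rw [hr l hl, sub_self]
  have htop : IntermediateField.adjoin ℚ (p.rootSet Ω) = ⊤ := by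
    have h1 := hgen (IntermediateField.adjoin ℚ (p.rootSet Ω)).toSubfield
      (IntermediateField.subset_adjoin ℚ _ hzr)
      (fun l hl => IntermediateField.subset_adjoin ℚ _ (hrr l hl))
    rw [eq_top_iff]
    intro x _
    have h2 : x ∈ (IntermediateField.adjoin ℚ (p.rootSet Ω)).toSubfield := by
      rw [h1]
      exact Subfield.mem_top x
    exact h2
  have hsf : IsSplittingField ℚ Ω p := by
    refine ⟨hsp, ?_⟩
    have h3 : (IntermediateField.adjoin ℚ (p.rootSet Ω)).toSubalgebra =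
        Algebra.adjoin ℚ (p.rootSet Ω) :=
      IntermediateField.adjoin_toSubalgebra_of_isAlgebraic fun x _ =>
        Algebra.IsAlgebraic.isAlgebraic x
    rw [← h3, htop]
    rfl
  have hn : Normal ℚ Ω := Normal.of_isSplittingField p
  exact ⟨⟩

end Pool.Agent.T9h37.BK
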